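import Pool.Agent.H40.GameLow
import Pool.Agent.H40.GameCompl

set_option autoImplicit false

namespace Pool.Agent.Results.MP_4814b8_lc.ComplementSeparation

open Pool.Agent.H40.Game

/-- A condition over a finite set of colours such that it and its complement have finite general
memory, while its chromatic memory is infinite. -/
theorem result : ∃ (C : Type) (_ : Fintype C) (_ : Nonempty C) (W : Set (ℕ → C)),
    genMem W < ⊤ ∧ genMem Wᶜ < ⊤ ∧ chrMem W = ⊤ :=
  ⟨Col, inferInstance, ⟨.a⟩, Wsafe, genMem_lt_top genMem_safe, genMem_lt_top genMem_compl,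
    chrMem_eq_top chr_safe⟩

end Pool.Agent.Results.MP_4814b8_lc.ComplementSeparation
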